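import Pool.Agent.W586.SK.Stm2

/-!
Project SX (owner helper586), part SX-HARDY (adapted from the file of helper50 for project SK).
-/

set_option autoImplicit false

namespace Pool.Agent.W852.SX

open MeasureTheory Set Pool.Agent.W586.SX
open Pool.Agent.W586.SK (E nm dv chi)
open Pool.Agent.H212R2.KLS (mu Bdd)
open Pool.Agent.H888R2.KT (LC)

theorem mp_mu {n : ℕ} {ρ : E n → ℝ} (hm : Measurable ρ) (g : E n ≃ₗᵢ[ℝ] E n)
    (hg : ∀ x, ρ (g x) = ρ x) : MeasurePreserving g (mu ρ) (mu ρ) := by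
  refine ⟨g.continuous.measurable, ?_⟩
  have hgm : Measurable g := g.continuous.measurable
  have hvol : MeasurePreserving g (volume : Measure (E n)) volume := g.measurePreserving
  ext s hs
  rw [Measure.map_apply hgm hs]
  unfold mu
  rw [withDensity_apply _ (hgm hs), withDensity_apply _ hs]
  have h1 := hvol.setLIntegral_comp_preimage hs (f := fun x => ENNReal.ofReal (ρ x))
    (by fun_prop)
  rw [← h1]
  simp only [hg]

theorem int_comp {n : ℕ} {ρ : E n → ℝ} (hm : Measurable ρ) (g : E n ≃ₗᵢ[ℝ] E n)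
    (hg : ∀ x, ρ (g x) = ρ x) (f : E n → ℝ) :
    ∫ x, f (g x) ∂(mu ρ) = ∫ x, f x ∂(mu ρ) :=
  (mp_mu hm g hg).integral_comp g.toHomeomorph.measurableEmbedding f

theorem ae_mu {n : ℕ} {ρ : E n → ℝ} (hm : Measurable ρ) (p : E n → Prop)
    (h : ∀ x, ρ x ≠ 0 → p x) : ∀ᵐ x ∂(mu ρ), p x := by
  unfold mu
  rw [ae_withDensity_iff (by fun_prop)]
  refine Filter.Eventually.of_forall fun x hx => h x ?_
  intro h0
  rw [h0] at hx
  simp at hx

theorem rho_sw {n : ℕ} {ρ : E n → ℝ} (hS : Sx ρ) (k l : Fin n) (x : E n) :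
    ρ (sw k l x) = ρ x :=
  hS.inv (Equiv.swap k l) x _ fun j => sw_apply k l x j

theorem fderiv_sw {n : ℕ} (T : E n ≃ₗᵢ[ℝ] E n) (g : E n → ℝ) (hg : ContDiff ℝ 1 g)
    (hodd : ∀ x, g (T x) = - g x) (x : E n) : ‖fderiv ℝ g (T x)‖ = ‖fderiv ℝ g x‖ := by
  have hd : Differentiable ℝ g := hg.differentiable (by norm_num)
  have h1 : (fun x => g (T x)) = fun x => - g x := funext hodd
  have h2 : fderiv ℝ (fun x => g (T x)) x
      = (fderiv ℝ g (T x)).comp (T.toContinuousLinearEquiv : E n →L[ℝ] E n) := by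
    have h3 : HasFDerivAt (fun x => T x) (T.toContinuousLinearEquiv : E n →L[ℝ] E n) x :=
      T.toContinuousLinearEquiv.hasFDerivAt
    exact ((hd (T x)).hasFDerivAt.comp x h3).fderiv
  have h4 : fderiv ℝ (fun x => g (T x)) x = - fderiv ℝ g x := by
    rw [h1]
    exact fderiv_fun_neg
  rw [h4] at h2
  have h5 := congrArg norm h2
  rw [norm_neg] at h5
  rw [h5]
  exact (ContinuousLinearMap.opNorm_comp_linearIsometryEquiv (fderiv ℝ g (T x)) T).symm

theorem sym {n : ℕ} {ρ : E n → ℝ} (hm : Measurable ρ) (T : E n ≃ₗᵢ[ℝ] E n)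
    (hrr : ∀ x, ρ (T x) = ρ x) (k l : Fin n) (hrk : ∀ x, (T x) k = x l)
    (hrl : ∀ x, (T x) l = x k) (hfix : ∀ x, x k = x l → T x = x) (g : E n → ℝ)
    (hgc : ContDiff ℝ 1 g) (hgodd : ∀ x, g (T x) = - g x) (F H : E n → ℝ)
    (hF : F = fun x => if x l < x k then g x ^ 2 else 0)
    (hH : H = {x : E n | x l < x k}.indicator (fun x => ‖fderiv ℝ g x‖ ^ 2))
    (hFz : ∀ x, x k ≤ x l → F x = 0)
    (hFint : Integrable F (mu ρ)) (hHint : Integrable H (mu ρ))
    (hDint : Integrable (fun x => ‖fderiv ℝ g x‖ ^ 2) (mu ρ)) :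
    (∫ x, g x ^ 2 ∂(mu ρ) = 2 * ∫ x, F x ∂(mu ρ)) ∧
    2 * ∫ x, H x ∂(mu ρ) ≤ ∫ x, ‖fderiv ℝ g x‖ ^ 2 ∂(mu ρ) := by
  have hFr : ∫ x, F (T x) ∂(mu ρ) = ∫ x, F x ∂(mu ρ) := int_comp hm T hrr F
  have hHr : ∫ x, H (T x) ∂(mu ρ) = ∫ x, H x ∂(mu ρ) := int_comp hm T hrr H
  have hmp := mp_mu hm T hrr
  have hFri : Integrable (fun x => F (T x)) (mu ρ) :=
    (hmp.integrable_comp_emb T.toHomeomorph.measurableEmbedding).2 hFint
  have hHri : Integrable (fun x => H (T x)) (mu ρ) :=
    (hmp.integrable_comp_emb T.toHomeomorph.measurableEmbedding).2 hHint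
  have hsq : ∀ x, g x ^ 2 = F x + F (T x) := by
    intro x
    rcases lt_trichotomy (x k) (x l) with hx | hx | hx
    · have e1 : F x = 0 := hFz x hx.le
      have e2 : F (T x) = g x ^ 2 := by
        simp only [hF]
        rw [if_pos (by rw [hrk, hrl]; exact hx), hgodd]
        ring
      rw [e1, e2, zero_add]
    · have e0 : T x = x := hfix x hx
      have e1 : g x = 0 := by
        have := hgodd x
        rw [e0] at this
        linarith
      rw [e0, hFz x hx.le, e1]
      ring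
    · have e1 : F x = g x ^ 2 := by simp only [hF]; rw [if_pos hx]
      have e2 : F (T x) = 0 := hFz _ (by rw [hrk, hrl]; exact hx.le)
      rw [e1, e2, add_zero]
  have hHle : ∀ x, H x + H (T x) ≤ ‖fderiv ℝ g x‖ ^ 2 := by
    intro x
    by_cases hx : x l < x k
    · have e1 : H x = ‖fderiv ℝ g x‖ ^ 2 := by
        simp only [hH]
        exact indicator_of_mem (s := {x : E n | x l < x k}) hx _
      have e2 : H (T x) = 0 := by
        simp only [hH]
        refine indicator_of_notMem (s := {x : E n | x l < x k}) ?_ _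
        show ¬ (T x) l < (T x) k
        rw [hrk, hrl]
        exact not_lt.2 hx.le
      rw [e1, e2, add_zero]
    · have e1 : H x = 0 := by
        simp only [hH]
        exact indicator_of_notMem (s := {x : E n | x l < x k}) hx _
      have e2 : H (T x) ≤ ‖fderiv ℝ g x‖ ^ 2 := by
        rw [← fderiv_sw T g hgc hgodd x]
        simp only [hH]
        exact indicator_le_self' (fun _ _ => by positivity) _
      linarith
  have hI3 : ∫ x, g x ^ 2 ∂(mu ρ) = 2 * ∫ x, F x ∂(mu ρ) := by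
    have e1 : ∫ x, g x ^ 2 ∂(mu ρ) = ∫ x, (F x + F (T x)) ∂(mu ρ) :=
      integral_congr_ae (Filter.Eventually.of_forall hsq)
    rw [e1, integral_add hFint hFri, hFr]
    ring
  have hI4 : 2 * ∫ x, H x ∂(mu ρ) ≤ ∫ x, ‖fderiv ℝ g x‖ ^ 2 ∂(mu ρ) := by
    have e1 : ∫ x, (H x + H (T x)) ∂(mu ρ) ≤ ∫ x, ‖fderiv ℝ g x‖ ^ 2 ∂(mu ρ) :=
      integral_mono (hHint.add hHri) hDint hHle
    rw [integral_add hHint hHri, hHr] at e1
    linarith
  exact ⟨hI3, hI4⟩

theorem hardy (h1 : S_FLOW) (h2 : S_FIELD) (h3 : S_HALF) (h4 : S_CUT) : S_HARDY := by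
  intro n ρ hS hL a ha hsupp k l f hkl hf hodd
  obtain ⟨R0, hR0⟩ := hL.bdd
  have hR : 0 < max R0 1 := lt_max_of_lt_right one_pos
  obtain ⟨η, hη1, hη2, hη3, hη4⟩ := h4 (n := n) (max R0 1) hR
  have hfin : IsFiniteMeasure (mu ρ) := ⟨lt_top_iff_ne_top.2 hL.fin⟩
  set g : E n → ℝ := fun x => f x * η x with hg
  have hgc : ContDiff ℝ 1 g := hf.mul hη1
  have hgs : HasCompactSupport g := hη2.mul_left
  have hgodd : ∀ x, g (sw k l x) = - g x := by
    intro x
    simp only [hg]
    rw [hodd, hη4 _ _ ((sw k l).norm_map x)]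
    ring
  have hball : ∀ x, ρ x ≠ 0 → ‖x‖ ≤ max R0 1 := by
    intro x hx
    by_contra hc
    rw [not_le] at hc
    exact hx (hR0 x ((le_max_left _ _).trans_lt hc))
  have hgf : ∀ x, ρ x ≠ 0 → g x = f x := by
    intro x hx
    simp only [hg]
    rw [(hη3 x (hball x hx)).1, mul_one]
  have hdgf : ∀ x, ρ x ≠ 0 → fderiv ℝ g x = fderiv ℝ f x := by
    intro x hx
    have e1 : fderiv ℝ g x = f x • fderiv ℝ η x + η x • fderiv ℝ f x :=
      fderiv_fun_mul (hf.differentiable (by norm_num) x) (hη1.differentiable (by norm_num) x)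
    rw [e1, (hη3 x (hball x hx)).1, (hη3 x (hball x hx)).2, smul_zero, zero_add, one_smul]
  have hI1 : ∫ x, f x ^ 2 ∂(mu ρ) = ∫ x, g x ^ 2 ∂(mu ρ) :=
    integral_congr_ae (ae_mu hS.meas _ fun x hx => by
      show f x ^ 2 = g x ^ 2
      rw [hgf x hx])
  have hI2 : ∫ x, ‖fderiv ℝ f x‖ ^ 2 ∂(mu ρ) = ∫ x, ‖fderiv ℝ g x‖ ^ 2 ∂(mu ρ) :=
    integral_congr_ae (ae_mu hS.meas _ fun x hx => by
      show ‖fderiv ℝ f x‖ ^ 2 = ‖fderiv ℝ g x‖ ^ 2
      rw [hdgf x hx])
  rw [hI1, hI2]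
  -- the half function
  obtain ⟨hFc, hFd⟩ := h3 k l g hkl hgc hgodd
  set F : E n → ℝ := fun x : E n => if x l < x k then g x ^ 2 else 0 with hF
  have hF0 : ∀ x, 0 ≤ F x := by
    intro x
    simp only [hF]
    split_ifs
    · positivity
    · exact le_rfl
  have hFz : ∀ x, x k ≤ x l → F x = 0 := by
    intro x hx
    simp only [hF]
    rw [if_neg (not_lt.2 hx)]
  have hFs : HasCompactSupport F := by
    refine hgs.mono ?_
    intro x hx
    rw [Function.mem_support] at hx ⊢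
    intro h0
    apply hx
    simp only [hF]
    rw [h0]
    simp
  set w : E n → E n := fx (48 * a) k l with hw
  have hwc : ContDiff ℝ 1 w := (h2 k l a hkl ha).1
  have hflow := h1 ρ hS hL k l a hkl ha F hFc hFs hF0 hFz
  rw [← hw] at hflow
  -- continuity and integrability
  have hdv : Continuous (dv w) := by
    unfold dv
    refine continuous_finset_sum _ fun j _ => ?_
    have e1 : Continuous (fderiv ℝ w) := hwc.continuous_fderiv (by norm_num)
    have e2 : Continuous fun x => (fderiv ℝ w x) (EuclideanSpace.single j 1) :=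
      e1.clm_apply continuous_const
    exact (EuclideanSpace.proj j : E n →L[ℝ] ℝ).continuous.comp e2
  have hLint : Integrable (fun x => fderiv ℝ F x (w x) + F x * dv w x) (mu ρ) := by
    refine Continuous.integrable_of_hasCompactSupport ?_ ?_
    · exact ((hFc.continuous_fderiv (by norm_num)).clm_apply hwc.continuous).add
        (hFc.continuous.mul hdv)
    · refine HasCompactSupport.add ?_ ?_
      · have e1 : HasCompactSupport (fderiv ℝ F) := hFs.fderiv (𝕜 := ℝ)
        refine e1.mono ?_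
        intro x hx
        rw [Function.mem_support] at hx ⊢
        intro h0
        apply hx
        rw [h0]
        rfl
      · exact hFs.mul_right
  have hFint : Integrable F (mu ρ) := hFc.continuous.integrable_of_hasCompactSupport hFs
  have hDc : Continuous fun x => ‖fderiv ℝ g x‖ ^ 2 :=
    (hgc.continuous_fderiv (by norm_num)).norm.pow 2
  have hDs : HasCompactSupport fun x => ‖fderiv ℝ g x‖ ^ 2 := by
    have e1 : HasCompactSupport (fderiv ℝ g) := hgs.fderiv (𝕜 := ℝ)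
    refine e1.mono ?_
    intro x hx
    rw [Function.mem_support] at hx ⊢
    intro h0
    apply hx
    rw [h0]
    simp
  have hDint : Integrable (fun x => ‖fderiv ℝ g x‖ ^ 2) (mu ρ) :=
    hDc.integrable_of_hasCompactSupport hDs
  have hSm : MeasurableSet {x : E n | x l < x k} :=
    (isOpen_lt (EuclideanSpace.proj l : E n →L[ℝ] ℝ).continuous
      (EuclideanSpace.proj k : E n →L[ℝ] ℝ).continuous).measurableSet
  set H : E n → ℝ := {x : E n | x l < x k}.indicator (fun x => ‖fderiv ℝ g x‖ ^ 2) with hH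
  have hHint : Integrable H (mu ρ) := hDint.indicator hSm
  -- pointwise inequality
  have hpt : ∀ x, ρ x ≠ 0 → fderiv ℝ F x (w x) + F x * dv w x ≤
      -(1 / (6144 * a)) * F x + 98304 * a * H x := by
    intro x hx
    by_cases hxi : x l < x k
    · have e1 : F x = g x ^ 2 := by simp only [hF]; rw [if_pos hxi]
      have e2 : H x = ‖fderiv ℝ g x‖ ^ 2 := by
        simp only [hH]
        exact indicator_of_mem (s := {x : E n | x l < x k}) hxi _
      have e3 : fderiv ℝ F x = (2 * g x) • fderiv ℝ g x := by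
        rw [hFd x, if_pos hxi]
      obtain ⟨f1, f2, -⟩ := (h2 k l a hkl ha).2 x hxi
      have f2' := f2 (hsupp x hx)
      rw [← hw] at f1 f2'
      rw [e3, e2, e1, ContinuousLinearMap.smul_apply, smul_eq_mul]
      have g1 : |fderiv ℝ g x (w x)| ≤ ‖fderiv ℝ g x‖ * 4 := by
        have := (fderiv ℝ g x).le_opNorm (w x)
        rw [Real.norm_eq_abs] at this
        exact this.trans (mul_le_mul_of_nonneg_left f1 (norm_nonneg _))
      have g2 : 2 * g x * fderiv ℝ g x (w x) ≤ 8 * (|g x| * ‖fderiv ℝ g x‖) := by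
        calc 2 * g x * fderiv ℝ g x (w x) ≤ |2 * g x * fderiv ℝ g x (w x)| := le_abs_self _
          _ = 2 * |g x| * |fderiv ℝ g x (w x)| := by
              rw [abs_mul, abs_mul, abs_two]
          _ ≤ 2 * |g x| * (‖fderiv ℝ g x‖ * 4) :=
              mul_le_mul_of_nonneg_left g1 (by positivity)
          _ = 8 * (|g x| * ‖fderiv ℝ g x‖) := by ring
      have g3 : g x ^ 2 * dv w x ≤ g x ^ 2 * (-(1 / (3072 * a))) :=
        mul_le_mul_of_nonneg_left f2' (sq_nonneg _)
      have g4 : 8 * (|g x| * ‖fderiv ℝ g x‖) ≤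
          1 / (6144 * a) * g x ^ 2 + 98304 * a * ‖fderiv ℝ g x‖ ^ 2 := by
        have k1 : 0 ≤ 1 / (6144 * a) * (|g x| - 24576 * a * ‖fderiv ℝ g x‖) ^ 2 := by positivity
        have k2 : 1 / (6144 * a) * (|g x| - 24576 * a * ‖fderiv ℝ g x‖) ^ 2
            = 1 / (6144 * a) * |g x| ^ 2 - 8 * (|g x| * ‖fderiv ℝ g x‖)
              + 98304 * a * ‖fderiv ℝ g x‖ ^ 2 := by
          field_simp
          ring
        rw [k2, sq_abs] at k1
        linarith
      have g5 : g x ^ 2 * (-(1 / (3072 * a))) = -(1 / (6144 * a)) * g x ^ 2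
          - 1 / (6144 * a) * g x ^ 2 := by
        field_simp
        ring
      linarith
    · have e1 : F x = 0 := hFz x (not_lt.1 hxi)
      have e2 : H x = 0 := by
        simp only [hH]
        exact indicator_of_notMem (s := {x : E n | x l < x k}) hxi _
      have e3 : fderiv ℝ F x = 0 := by
        rw [hFd x, if_neg hxi]
      rw [e3, e2, e1]
      simp
  have hkey : ∫ x, F x ∂(mu ρ) ≤ (24576 * a) ^ 2 * ∫ x, H x ∂(mu ρ) := by
    have k1 : ∫ x, (fderiv ℝ F x (w x) + F x * dv w x) ∂(mu ρ) ≤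
        ∫ x, (-(1 / (6144 * a)) * F x + 98304 * a * H x) ∂(mu ρ) :=
      integral_mono_ae hLint ((hFint.const_mul _).add (hHint.const_mul _))
        (ae_mu hS.meas _ hpt)
    rw [integral_add (hFint.const_mul _) (hHint.const_mul _), integral_const_mul,
      integral_const_mul] at k1
    have k2 := hflow.trans k1
    have k3 : 0 ≤ 6144 * a * (-(1 / (6144 * a)) * ∫ x, F x ∂(mu ρ)
        + 98304 * a * ∫ x, H x ∂(mu ρ)) := mul_nonneg (by positivity) k2
    have k4 : 6144 * a * (-(1 / (6144 * a)) * ∫ x, F x ∂(mu ρ) + 98304 * a * ∫ x, H x ∂(mu ρ))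
        = - ∫ x, F x ∂(mu ρ) + (24576 * a) ^ 2 * ∫ x, H x ∂(mu ρ) := by
      field_simp
      ring
    rw [k4] at k3
    linarith
  have hfix : ∀ x : E n, x k = x l → sw k l x = x := by
    intro x hx
    ext j
    rw [sw_apply]
    by_cases hj : j = k
    · rw [hj, Equiv.swap_apply_left, hx]
    · by_cases hj2 : j = l
      · rw [hj2, Equiv.swap_apply_right, hx]
      · rw [Equiv.swap_apply_of_ne_of_ne hj hj2]
  obtain ⟨hI3, hI4⟩ := sym hS.meas (sw k l) (rho_sw hS k l) k l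
    (fun x => (sw_apply k l x k).trans (by rw [Equiv.swap_apply_left]))
    (fun x => (sw_apply k l x l).trans (by rw [Equiv.swap_apply_right])) hfix g hgc hgodd F H
    hF hH hFz hFint hHint hDint
  rw [hI3]
  calc 2 * ∫ x, F x ∂(mu ρ) ≤ 2 * ((24576 * a) ^ 2 * ∫ x, H x ∂(mu ρ)) := by linarith
    _ = (24576 * a) ^ 2 * (2 * ∫ x, H x ∂(mu ρ)) := by ring
    _ ≤ (24576 * a) ^ 2 * ∫ x, ‖fderiv ℝ g x‖ ^ 2 ∂(mu ρ) :=
        mul_le_mul_of_nonneg_left hI4 (by positivity)

end Pool.Agent.W852.SX
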